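import Mathlib
import Pool.Agent.TH350.SC.Defs
import Pool.Agent.TH350.SC.Fin

/-!
# Non-vanishing of `p`-adic zeta values: one among about `√m` consecutive residue classes

`ζ_p(n) = p^n/(p^n-1) · 1/(n-1) · lim_N p^{-N} ∑_{0 < a < p^N, p ∤ a} a^{1-n}`.  `GoodClass p m` says
that for every `n ≥ 2`, `n ≡ 1 - 2m (mod p - 1)`, the limit `1/(n-1) · lim_N p^{-N} ∑ a^{1-n}` exists
and is a `p`-adic unit; so `ζ_p(n)` is `p^n` times a unit, in particular not zero.

Proof.  Voronoi's argument modulo powers of `p` (`Pool/Agent/TH350/SC/Vor.lean`, `Bern.lean`,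
`Main.lean`) and the starting theorem `MP_a3a416_nt.IrregularRuns` on Bernoulli numbers.
-/

set_option autoImplicit false

namespace Pool.Agent.Results.MP_b73316_nt.ConsecutiveClasses

open Pool.Agent.TH350.SC

/-- For every prime `p`, `a` and `l ≥ 1` with `2a ≤ (l+1)(2l+1)` and `2(a+l) ≤ p - 3` there is `m`,
`a < m ≤ a + l`, such that for all `n ≥ 2`, `n ≡ 1 - 2m (mod p - 1)`, the `p`-adic number
`1/(n-1) · lim_N p^{-N} ∑_{0 < x < p^N, p ∤ x} x^{1-n}` exists and is a unit. -/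
theorem result (p : ℕ) (hp : p.Prime) (a l : ℕ) (hl : 1 ≤ l)
    (ha : 2 * a ≤ (l + 1) * (2 * l + 1)) (hpl : 2 * (a + l) + 3 ≤ p) :
    ∃ m : ℕ, a < m ∧ m ≤ a + l ∧ GoodClass p m :=
  window p hp a l hl ha hpl

end Pool.Agent.Results.MP_b73316_nt.ConsecutiveClasses
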